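import Pool.Agent.Lib.MP_e9c0f3_ag.Main

open MvPolynomial Pool.Agent.Lib.MP_e9c0f3_ag

namespace Pool.Agent.Lib.MP_e9c0f3_ag.OldLicci

/-- The variational Hodge conjecture, in de Rham form, for families of smooth hypersurfaces of
dimension `2 * k` and integral combinations of classes of cycles in the linkage class of a
complete intersection. The hypothesis `hind` is empty for a single cycle. -/
theorem result (k d : ℕ) (hd : 2 ≤ d) (A : Type) [CommRing A] [IsDomain A] [Algebra ℂ A]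
    [Algebra.Smooth ℂ A] (F β : MvPolynomial (Fin (2 * (k + 1))) A) (hF : F.IsHomogeneous d)
    (hs : ∀ (s : A →ₐ[ℂ] ℂ) (z : Fin (2 * (k + 1)) → ℂ),
      (∀ i, eval z (pderiv i (map (s : A →+* ℂ) F)) = 0) → z = 0)
    (hβ : β.totalDegree ≤ (k + 1) * (d - 2))
    (hflat : ∀ D : Derivation ℂ A A, Exact F (coeffMap D β + coeffMap D F * β))
    (s₀ : A →ₐ[ℂ] ℂ) (m : ℕ) (c : Fin m → ℤ) (hc : ∀ a, c a ≠ 0)
    (I : Fin m → Ideal (MvPolynomial (Fin (2 * (k + 1))) ℂ)) (hI : ∀ a, Licci (k + 1) (I a))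
    (ι : Fin m → Type) [∀ a, Fintype (ι a)] [∀ a, DecidableEq (ι a)] (par : ∀ a, ι a → ℕ)
    (wt : ∀ a, ι a → ℤ) (δ : ∀ a, Matrix (ι a) (ι a) (MvPolynomial (Fin (2 * (k + 1))) ℂ))
    (hδ : ∀ a, IsMF d (map (s₀ : A →+* ℂ) F) (par a) (wt a) (δ a))
    (hres : ∀ a, Resolves (par a) (δ a) (I a))
    (hind : ∀ Q : Fin m → MvPolynomial (Fin (2 * (k + 1))) ℂ, (∀ a, (Q a).IsHomogeneous d) →
      ∑ a, Q a * ch (par a) (δ a) ∈
        Ideal.span (Set.range fun i => pderiv i (map (s₀ : A →+* ℂ) F)) →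
      ∀ a, Q a * ch (par a) (δ a) ∈
        Ideal.span (Set.range fun i => pderiv i (map (s₀ : A →+* ℂ) F)))
    (h0 : Exact (map (s₀ : A →+* ℂ) F) (map (s₀ : A →+* ℂ) β - ∑ a, c a • ch (par a) (δ a)))
    (s : A →ₐ[ℂ] ℂ) : IsChern d (map (s : A →+* ℂ) F) (map (s : A →+* ℂ) β) :=
  main k d hd A F β hF hs hβ hflat s₀ m c hc I hI ι par wt δ hδ hres hind h0 s

end Pool.Agent.Lib.MP_e9c0f3_ag.OldLicci
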